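import Mathlib
import Pool.Agent.Q17.LS.Nf
import Pool.Agent.Q17.LS.Fam
import Pool.Agent.Q17.LS.Cdr

/-!
# The parity conjecture over `ℚ` and over number fields for the curves of the family `X_0(4)`

All elliptic curves `E` over `ℚ` with a rational cyclic subgroup of order 4, ordered by the height or by
the conductor. For every `r ≥ 0` a positive proportion of them has, over EVERY number field `K` whose
Galois closure over `ℚ` has odd degree, root number `(-1) ^ r` and a rank of the parity of the rank over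
`ℚ`, and `rank E(ℚ) + dim Ш(E')[2] = r`, where `E'` is the quotient of `E` by a rational point of order
two. For every `m ≥ 2` a positive proportion has, for one field `F = ℚ(√d_1, ..., √d_m)` of degree
`2 ^ m` of a finite list, rank zero over `F`, and over EVERY number field `K` containing `F` whose
Galois closure over `F` has odd degree root number `1` and even rank.

The root numbers are those of the isogenous curve `E'` (isogenous curves have the same root numbers).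
The condition `Cyclic4 A B` is defined in `Pool.Agent.Q17.IG.Cyc`: there is a point `P` of order 4 of
`y² = x³ + A x + B` over the algebraic closure of `ℚ` such that `σ P = P` or `σ P = -P` for all
automorphisms `σ`. The Tate-Shafarevich group is that of `Pool.Agent.TH841.SH.ShaDef`.
-/

set_option autoImplicit false

namespace Pool.Agent.Results.MP_577099_nt.CyclicFourNumberFields

open Finset Filter Topology NumberField

open Pool.Agent.TH841.SH.D (Sha rk)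

open Pool.Agent.Q17.IG (Cyclic4)

/-- the curve `y² = x³ + A x + B`, `c = (A, B)` -/
def E (c : ℤ × ℤ) : WeierstrassCurve ℚ := ⟨0, 0, 0, (c.1 : ℚ), (c.2 : ℚ)⟩

/-- The prime-to-6 part of the conductor of `y² = x³ + A x + B` (there is no prime `p` with `p⁴ ∣ A`
and `p⁶ ∣ B`): the product over the primes `p ≥ 5` dividing `4 A³ + 27 B²` of `p` (multiplicative
reduction: `p ∤ A`) or `p²` (additive reduction: `p ∣ A`) -/
def Cond6 (c : ℤ × ℤ) : ℕ :=
  ∏ p ∈ (Int.natAbs (4 * c.1 ^ 3 + 27 * c.2 ^ 2)).primeFactors.filter (fun p => 5 ≤ p),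
    if (p : ℤ) ∣ c.1 then p ^ 2 else p

/-- the admissible factors: functions with values between `1` and `2 ^ 8 * 3 ^ 5`, for instance the
part of the conductor composed of the primes 2 and 3, or `f = 1` -/
def Factor (f : ℤ × ℤ → ℕ) : Prop := ∀ c, 1 ≤ f c ∧ f c ≤ 2 ^ 8 * 3 ^ 5

/-- the naive height of `y² = x³ + A x + B` is at most `Z` -/
def HeightLe (c : ℤ × ℤ) (Z : ℕ) : Prop := 4 * |c.1| ^ 3 ≤ Z ∧ 27 * c.2 ^ 2 ≤ Z

/-- the conductor (its prime-to-6 part times the factor `f`) of `y² = x³ + A x + B` is at most `Z` -/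
def CondLe (f : ℤ × ℤ → ℕ) (c : ℤ × ℤ) (Z : ℕ) : Prop := f c * Cond6 c ≤ Z

/-- the orderings: by the height, or by the conductor with an admissible factor -/
def Ordering (I : ℤ × ℤ → ℕ → Prop) : Prop := I = HeightLe ∨ ∃ f, Factor f ∧ I = CondLe f

/-- The pairs `(A, B)` of integers such that `4 A³ + 27 B² ≠ 0`, there is no prime `p` with
`p⁴ ∣ A` and `p⁶ ∣ B`, `y² = x³ + A x + B` has a rational cyclic subgroup of order 4, and the size
(`HeightLe` or `CondLe`) is at most `Z`. Every elliptic curve over `ℚ` with a rational cyclic subgroup of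
order 4 is isomorphic to `y² = x³ + A x + B` for exactly one pair with the first three properties. -/
def Fam (I : ℤ × ℤ → ℕ → Prop) (Z : ℕ) : Set (ℤ × ℤ) :=
  {c : ℤ × ℤ | 4 * c.1 ^ 3 + 27 * c.2 ^ 2 ≠ 0 ∧
    (∀ p : ℕ, p.Prime → ¬ ((p : ℤ) ^ 4 ∣ c.1 ∧ (p : ℤ) ^ 6 ∣ c.2)) ∧
    Cyclic4 c.1 c.2 ∧ I c Z}

/-- the proportion of the curves of `S` in the family -/
noncomputable def proportion (I : ℤ × ℤ → ℕ → Prop) (S : Set (ℤ × ℤ)) (Z : ℕ) : ℝ :=
  ((Fam I Z ∩ S).ncard : ℝ) / (Fam I Z).ncard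

/-- `c'` is the quotient of the curve `c` by a rational point `(e, 0)` of order two: the curve `c` is
`y² = (x - e) (x² + e x + q² - 2 e²)`, with `X = x - e` it is `y² = X (X² + 3 e X + q²)`, the quotient by
`(0, 0)` is `Y² = X (X² - 6 e X + 9 e² - 4 q²)`, and with `X = x + 2 e` it is
`Y² = x³ - (3 e² + 4 q²) x + 2 e³ - 8 q² e`; the curve `c'` is this curve, scaled by `u`. -/
def Quotient (c c' : ℤ × ℤ) : Prop :=
  ∃ (e q : ℤ) (u : ℕ), 0 < u ∧ c.1 = q ^ 2 - 3 * e ^ 2 ∧ c.2 = 2 * e ^ 3 - q ^ 2 * e ∧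
    (u : ℤ) ^ 4 * c'.1 = -(3 * e ^ 2 + 4 * q ^ 2) ∧
    (u : ℤ) ^ 6 * c'.2 = 2 * e ^ 3 - 8 * q ^ 2 * e

section fields

variable (K : Type) [Field K] [NumberField K]

/-- the curve `y² = x³ + A x + B` over `K` -/
def EK (A B : ℤ) : WeierstrassCurve K := ⟨0, 0, 0, (A : K), (B : K)⟩

open Classical in
/-- the Mordell-Weil rank over `K` -/
noncomputable def rankK (c : ℤ × ℤ) : ℕ := Module.finrank ℤ (EK K c.1 c.2).toAffine.Point

variable {K}

/-- `V` is an equation with coefficients in the ring of integers of the curve `W` over `K` -/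
def ModelOf (W : WeierstrassCurve K) (V : WeierstrassCurve (𝓞 K)) : Prop :=
  ∃ C : WeierstrassCurve.VariableChange K, C • W = V.map (algebraMap (𝓞 K) K)

/-- `a_P = N(P) + 1 - #V(𝓞 K / P)`, that is `N(P)` minus the number of the affine solutions of the
Weierstrass equation modulo `P`; for a prime of multiplicative reduction this is `1` (split) or `-1`
(non-split) -/
noncomputable def aP (V : WeierstrassCurve (𝓞 K)) (P : Ideal (𝓞 K)) : ℤ :=
  (Nat.card (𝓞 K ⧸ P) : ℤ) - Nat.card {z : (𝓞 K ⧸ P) × (𝓞 K ⧸ P) //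
    (V.map (Ideal.Quotient.mk P)).toAffine.Equation z.1 z.2}

/-- the quadratic twist by `d` of the curve `V` (the curve `y² = x³ + b₂ x² + 8 b₄ x + 16 b₆`) -/
def twist (V : WeierstrassCurve (𝓞 K)) (d : 𝓞 K) : WeierstrassCurve K :=
  ⟨0, (d : K) * (V.b₂ : K), 0, 8 * (d : K) ^ 2 * (V.b₄ : K), 16 * (d : K) ^ 3 * (V.b₆ : K)⟩

open Classical in
/-- `w` is the local root number of the elliptic curve `W` at the prime `P`, for three types of
reduction at `P`: good reduction (`1`), multiplicative reduction (`-a_P`), and, for `P` prime to `2`,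
the quadratic twist by an integer `d` of odd valuation `n` at `P` of a curve with good reduction at `P`
(`1` if `-1` is a square modulo `P` and `-1` otherwise) -/
def LocalRoot (W : WeierstrassCurve K) (P : Ideal (𝓞 K)) (w : ℤ) : Prop :=
  (∃ V : WeierstrassCurve (𝓞 K), ModelOf W V ∧ V.Δ ∉ P ∧ w = 1) ∨
  (∃ V : WeierstrassCurve (𝓞 K), ModelOf W V ∧ V.Δ ∈ P ∧ V.c₄ ∉ P ∧ w = -aP V P) ∨
  ((2 : 𝓞 K) ∉ P ∧ ∃ (V : WeierstrassCurve (𝓞 K)) (d : 𝓞 K) (n : ℕ), Odd n ∧ d ∈ P ^ n ∧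
    d ∉ P ^ (n + 1) ∧ (∃ C : WeierstrassCurve.VariableChange K, C • W = twist V d) ∧ V.Δ ∉ P ∧
    w = if IsSquare (-1 : 𝓞 K ⧸ P) then 1 else -1)

/-- `w` is the root number `w(W/K)`: the product over all the places of the local root numbers, which
are `-1` at the infinite places, `f P` at the primes `P`, and `1` outside the finite set `S` -/
def RootNumber (W : WeierstrassCurve K) (w : ℤ) : Prop :=
  ∃ f : Ideal (𝓞 K) → ℤ, (∀ P : Ideal (𝓞 K), P.IsPrime → P ≠ ⊥ → LocalRoot W P (f P)) ∧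
    ∃ S : Finset (Ideal (𝓞 K)), (∀ P ∈ S, P.IsPrime ∧ P ≠ ⊥) ∧
      (∀ P : Ideal (𝓞 K), P.IsPrime → P ≠ ⊥ → P ∉ S → f P = 1) ∧
      w = (-1) ^ Nat.card (InfinitePlace K) * ∏ P ∈ S, f P

end fields

/-- `K = ℚ(√d_1, ..., √d_m)` -/
def IsField {m : ℕ} (d : Fin m → ℕ) (K : Type) [Field K] [NumberField K] : Prop :=
  ∃ x : Fin m → K, (∀ i, x i ^ 2 = (d i : K)) ∧ IntermediateField.adjoin ℚ (Set.range x) = ⊤

/-- The tuples `(q_1 q'_1, ..., q_m q'_m)`, where the `q_i` and `q'_i` are `2 m` distinct primes, all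
larger than `N`. -/
def Tuple {m : ℕ} (N : ℕ) (d : Fin m → ℕ) : Prop :=
  ∃ q q' : Fin m → ℕ, (∀ i, d i = q i * q' i) ∧ (∀ i, (q i).Prime ∧ N < q i) ∧
    (∀ i, (q' i).Prime ∧ N < q' i) ∧ Function.Injective q ∧ Function.Injective q' ∧
    ∀ i j, q i ≠ q' j

/-- `K` is a number field containing `F` whose Galois closure over `F` has odd degree: `K` is
contained in a number field `N` that is Galois of odd degree over `F`. -/
def OddClosure (F K : Type) [Field F] [NumberField F] [Field K] [NumberField K] [Algebra F K] :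
    Prop :=
  ∃ (N : Type) (_ : Field N) (_ : NumberField N) (_ : Algebra F N) (_ : Algebra K N),
    IsScalarTower F K N ∧ IsGalois F N ∧ Odd (Module.finrank F N)

/-- The curves `E` with `rank E(ℚ) + dim Ш(E')[2] = r` for the quotient `E'` by a rational point of
order two such that over all number fields `K` whose Galois closure over `ℚ` has odd degree the root
number of `E'` is `(-1) ^ r` and the rank of `E` has the parity of the rank over `ℚ`. -/
def ParityOdd (r : ℕ) : Set (ℤ × ℤ) :=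
  {c | ∃ c' : ℤ × ℤ, Quotient c c' ∧
    2 ^ rk (E c) * Nat.card {x : Sha (E c') // x + x = 0} = 2 ^ r ∧
    ∀ (K : Type) [Field K] [NumberField K], OddClosure ℚ K →
      RootNumber (EK K c'.1 c'.2) ((-1) ^ r) ∧ Even (rankK K c + rk (E c))}

/-- The curves `E` such that for the field `F = ℚ(√d_1, ..., √d_m)` the rank of `E(F)` is zero and for
all number fields `K` containing `F` whose Galois closure over `F` has odd degree the rank of `E(K)` is
even and the root number of `E'` over `K` is `1`, for a quotient `E'` of `E` by a rational point of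
order two. -/
def Parity {m : ℕ} (d : Fin m → ℕ) : Set (ℤ × ℤ) :=
  {c | ∃ c' : ℤ × ℤ, Quotient c c' ∧ ∀ (F : Type) [Field F] [NumberField F], IsField d F →
    rankK F c = 0 ∧ ∀ (K : Type) [Field K] [NumberField K] [Algebra F K], OddClosure F K →
      RootNumber (EK K c'.1 c'.2) 1 ∧ Even (rankK K c)}

/-! ### Proofs -/

lemma cond_eq (c : ℤ × ℤ) : Pool.Agent.Y679.Cr.cs c = Cond6 c := by
  unfold Pool.Agent.Y679.Cr.cs Pool.Agent.H925R.Szpiro.condS Cond6
  rw [Pool.Agent.Y679.Cr.D_neg, Int.natAbs_neg]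
  refine prod_congr rfl fun p _ => ?_
  by_cases h : (p : ℤ) ∣ c.1
  · rw [if_pos h, if_pos (Int.dvd_neg.2 h)]
  · rw [if_neg h, if_neg fun h' => h (Int.dvd_neg.1 h')]

lemma bdd {f : ℤ × ℤ → ℕ} (hf : Factor f) : Pool.Agent.Y679.Cr.Bdd f :=
  fun c => ⟨(hf c).1, (hf c).2.trans (by norm_num)⟩

lemma FamC_eq (f : ℤ × ℤ → ℕ) (Z : ℕ) :
    Fam (CondLe f) Z = Pool.Agent.Y679.Cr.Gm Pool.Agent.Q17.IG.P4 f Z := by
  ext c
  unfold Fam CondLe Pool.Agent.Y679.Cr.Gm Pool.Agent.Q17.IG.P4 Pool.Agent.Q17.IG.Rd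
  rw [Set.mem_ofPred_eq, Set.mem_ofPred_eq, cond_eq]
  constructor
  · rintro ⟨h1, h2, h3, h4⟩
    exact ⟨⟨h1, h2, (Pool.Agent.Q17.IG.cyclic4_iff h1).1 h3⟩, h4⟩
  · rintro ⟨⟨h1, h2, h3⟩, h4⟩
    exact ⟨h1, h2, (Pool.Agent.Q17.IG.cyclic4_iff h1).2 h3, h4⟩

lemma FamH_eq (H : ℕ) : Fam HeightLe H = (Pool.Agent.Q17.IG.Fm H : Set (ℤ × ℤ)) := by
  ext c
  rw [mem_coe, Pool.Agent.Q17.IG.mem_Fm]
  unfold Fam HeightLe
  rw [Set.mem_ofPred_eq]
  constructor
  · rintro ⟨h1, h2, h3, h4, h5⟩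
    exact ⟨h1, h4, h5, h2, (Pool.Agent.Q17.IG.cyclic4_iff h1).1 h3⟩
  · rintro ⟨h1, h4, h5, h2, h3⟩
    exact ⟨h1, h2, (Pool.Agent.Q17.IG.cyclic4_iff h1).2 h3, h4, h5⟩

lemma FamC_fin {f : ℤ × ℤ → ℕ} (hf : Factor f) (Z : ℕ) : (Fam (CondLe f) Z).Finite := by
  rw [FamC_eq]
  exact Pool.Agent.Q17.IG.G4_fin (bdd hf) Z

lemma FamC_tendsto {f : ℤ × ℤ → ℕ} (hf : Factor f) :
    Tendsto (fun Z : ℕ => (Fam (CondLe f) Z).ncard) atTop atTop := by
  obtain ⟨c, Z0, hc, h⟩ := Pool.Agent.Q17.IG.G4_ge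
  rw [← tendsto_natCast_atTop_iff (R := ℝ)]
  have h1 : Tendsto (fun Z : ℕ => c * (Z : ℝ) ^ ((2 : ℝ) / 3)) atTop atTop :=
    Tendsto.const_mul_atTop hc
      ((tendsto_rpow_atTop (by norm_num)).comp tendsto_natCast_atTop_atTop)
  refine tendsto_atTop_mono' atTop (eventually_atTop.2 ⟨Z0, fun Z hZ => ?_⟩) h1
  change c * (Z : ℝ) ^ ((2 : ℝ) / 3) ≤ ((Fam (CondLe f) Z).ncard : ℝ)
  rw [FamC_eq]
  exact h f (bdd hf) Z hZ

lemma FamH_tendsto : Tendsto (fun H : ℕ => (Fam HeightLe H).ncard) atTop atTop := by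
  obtain ⟨C4, N1, hC4, h⟩ := Pool.Agent.Q17.IG.Fm_lower
  rw [Filter.tendsto_atTop_atTop]
  intro b
  obtain ⟨n, hn⟩ := exists_nat_gt (C4 * b)
  refine ⟨(max N1 n + 1) ^ 6, fun H hH => ?_⟩
  have h1 := h (max N1 n + 1) H (by omega) (hH.trans (Nat.le_mul_of_pos_left H (by norm_num)))
  rw [FamH_eq, Set.ncard_coe_finset]
  have h2 : (n : ℝ) ≤ ((max N1 n + 1 : ℕ) : ℝ) := by
    have : n ≤ max N1 n + 1 := by omega
    exact_mod_cast this
  have h3 : (1 : ℝ) ≤ ((max N1 n + 1 : ℕ) : ℝ) := by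
    have : 1 ≤ max N1 n + 1 := by omega
    exact_mod_cast this
  have h4 : C4 * b ≤ C4 * (Pool.Agent.Q17.IG.Fm H).card := by nlinarith
  exact_mod_cast le_of_mul_le_mul_left h4 hC4

lemma Fam_fin {I : ℤ × ℤ → ℕ → Prop} (hI : Ordering I) (Z : ℕ) : (Fam I Z).Finite := by
  rcases hI with rfl | ⟨f, hf, rfl⟩
  · rw [FamH_eq]
    exact finite_toSet _
  · exact FamC_fin hf Z

lemma Fam_tendsto {I : ℤ × ℤ → ℕ → Prop} (hI : Ordering I) :
    Tendsto (fun Z : ℕ => (Fam I Z).ncard) atTop atTop := by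
  rcases hI with rfl | ⟨f, hf, rfl⟩
  · exact FamH_tendsto
  · exact FamC_tendsto hf

lemma prop_le {I : ℤ × ℤ → ℕ → Prop} (hI : Ordering I) {Z : ℕ} {S S' : Set (ℤ × ℤ)}
    (h : ∀ c ∈ Fam I Z, c ∈ S → c ∈ S') : proportion I S Z ≤ proportion I S' Z := by
  unfold proportion
  refine div_le_div_of_nonneg_right (Nat.cast_le.2 (Set.ncard_le_ncard ?_
    ((Fam_fin hI Z).subset Set.inter_subset_left))) (Nat.cast_nonneg _)
  rintro c ⟨h1, h2⟩
  exact ⟨h1, h c h1 h2⟩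

open Classical in
lemma propH {T : ℤ × ℤ → Prop} {δ : ℝ} {H : ℕ} (h0 : 0 < (Fam HeightLe H).ncard)
    (h : δ * ((Pool.Agent.Q17.IG.Fm H).card : ℝ) ≤
      (((Pool.Agent.Q17.IG.Fm H).filter T).card : ℝ)) : δ ≤ proportion HeightLe {c | T c} H := by
  have h0' : (0 : ℝ) < (Fam HeightLe H).ncard := by exact_mod_cast h0
  unfold proportion
  rw [le_div_iff₀ h0', FamH_eq, Set.ncard_coe_finset]
  refine h.trans (Nat.cast_le.2 ?_)
  rw [← Set.ncard_coe_finset]
  refine Set.ncard_le_ncard (fun k hk => ?_) ((finite_toSet _).subset Set.inter_subset_left)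
  rw [mem_coe, mem_filter] at hk
  exact ⟨mem_coe.2 hk.1, hk.2⟩

/-- positive proportions in both orderings, one of finitely many properties -/
lemma posL {ι : Type} {Lst : Finset ι} {T : ι → ℤ × ℤ → Prop} (hT : ∃ c : ℝ, 0 < c ∧
      ∃ H0 : ℕ, ∀ H : ℕ, H0 ≤ H → ∃ d ∈ Lst, ∃ S : Finset (ℤ × ℤ), (S : Set (ℤ × ℤ)) ⊆
        {k | k ∈ Pool.Agent.W307.RT.Cv 2 H ∧ T d k} ∧
      c * ((Pool.Agent.W307.RT.Cv 2 H).card : ℝ) ≤ (S.card : ℝ))
    {I : ℤ × ℤ → ℕ → Prop} (hI : Ordering I) :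
    ∃ δ : ℝ, 0 < δ ∧ ∀ᶠ Z : ℕ in atTop, ∃ d ∈ Lst,
      δ ≤ proportion I {c | Pool.Agent.Q17.IG.Q4 (T d) c} Z := by
  classical
  rcases hI with rfl | ⟨f, hf, rfl⟩
  · obtain ⟨δ, hδ, H0, h⟩ := Pool.Agent.Q17.QF.posHL hT
    refine ⟨δ, hδ, ?_⟩
    filter_upwards [eventually_ge_atTop H0, FamH_tendsto.eventually_gt_atTop 0] with H h1 h2
    obtain ⟨d, hd, h3⟩ := h H h1
    exact ⟨d, hd, propH h2 h3⟩
  · obtain ⟨δ, hδ, h⟩ := Pool.Agent.Q17.QF.posCL hT
    refine ⟨δ, hδ, ?_⟩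
    filter_upwards [h f (bdd hf)] with Z hZ
    obtain ⟨d, hd, h3⟩ := hZ
    refine ⟨d, hd, ?_⟩
    unfold proportion
    rw [FamC_eq]
    exact h3

/-- positive proportions in both orderings -/
lemma pos1 {T : ℤ × ℤ → Prop} (hT : ∃ c : ℝ, 0 < c ∧
      ∃ H0 : ℕ, ∀ H : ℕ, H0 ≤ H → ∃ S : Finset (ℤ × ℤ), (S : Set (ℤ × ℤ)) ⊆
        {k | k ∈ Pool.Agent.W307.RT.Cv 2 H ∧ T k} ∧
      c * ((Pool.Agent.W307.RT.Cv 2 H).card : ℝ) ≤ (S.card : ℝ))
    {I : ℤ × ℤ → ℕ → Prop} (hI : Ordering I) :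
    ∃ δ : ℝ, 0 < δ ∧ ∀ᶠ Z : ℕ in atTop,
      δ ≤ proportion I {c | Pool.Agent.Q17.IG.Q4 T c} Z := by
  obtain ⟨c, hc, H0, h⟩ := hT
  obtain ⟨δ, hδ, h1⟩ := posL (Lst := ({()} : Finset Unit)) (T := fun _ => T)
    ⟨c, hc, H0, fun H hH => ⟨(), mem_singleton_self _, h H hH⟩⟩ hI
  refine ⟨δ, hδ, h1.mono fun Z hZ => ?_⟩
  obtain ⟨-, -, h2⟩ := hZ
  exact h2

lemma gen_of {m : ℕ} {d : Fin m → ℕ} {K : Type} [Field K] [NumberField K] (h : IsField d K) :
    Pool.Agent.TH841.NF.Gen K (fun j => (d j : ℤ)) := by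
  obtain ⟨x, hx, hg⟩ := h
  exact ⟨x, fun i => by rw [hx i, Int.cast_natCast], hg⟩

lemma tup_pos {m N : ℕ} {d : Fin m → ℕ} (h : Tuple N d) (i : Fin m) : (d i : ℤ) ≠ 0 := by
  obtain ⟨q, q', h1, h2, h3, -⟩ := h
  rw [h1 i]
  exact_mod_cast mul_ne_zero (h2 i).1.ne_zero (h3 i).1.ne_zero

lemma tup8 {m N : ℕ} {d : Fin m → ℕ} (h : Pool.Agent.Y667.QK.R.E.Tup8 m N d) : Tuple N d := by
  obtain ⟨q, q', h1, h2, h3, h4⟩ := h
  exact ⟨q, q', h1, fun i => ⟨(h2 i).1, (h2 i).2.1⟩, fun i => ⟨(h3 i).1, (h3 i).2.1⟩, h4⟩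

lemma deg_of {m N : ℕ} {d : Fin m → ℕ} (hd : Tuple N d) (K : Type) [Field K] [NumberField K]
    (hK : IsField d K) : Module.finrank ℚ K = 2 ^ m := by
  obtain ⟨q, q', h1, h2, h3, h4, h5, h6⟩ := hd
  refine Pool.Agent.Y388.QK.DEG m q q' (fun j => (h2 j).1) (fun j => (h3 j).1) h4 h5 h6 K ?_
  have := gen_of hK
  have e : (fun j => ((q j * q' j : ℕ) : ℤ)) = fun j => (d j : ℤ) := by
    funext j
    rw [h1 j]
  rw [e]
  exact this

lemma odd_of {r : ℕ} {c : ℤ × ℤ} (h : Pool.Agent.Q17.IG.Q4 (Pool.Agent.Y667.OG.TOG r) c) :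
    c ∈ ParityOdd r := by
  obtain ⟨c', ⟨e, q, u, s, L⟩, h1, h2⟩ := Pool.Agent.Q17.LS.NF.og_of h
  exact ⟨c', ⟨e, q, u, L.hu, L.hc1, L.hc2, L.h1, L.h2⟩, h1, h2⟩

lemma parity_of {m N : ℕ} {d : Fin m → ℕ} (hd : Tuple N d) {c : ℤ × ℤ}
    (h : Pool.Agent.Q17.IG.Q4 (Pool.Agent.Y667.QK.R.E.TwE (fun j => (d j : ℤ))) c) :
    c ∈ Parity d := by
  obtain ⟨c', ⟨e, q, u, s, L⟩, h1⟩ := Pool.Agent.Q17.LS.NF.twe_of (tup_pos hd) h
  exact ⟨c', ⟨e, q, u, L.hu, L.hc1, L.hc2, L.h1, L.h2⟩, fun F _ _ hF => h1 F (gen_of hF)⟩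

/-- **Theorem.** Order the elliptic curves over `ℚ` with a rational cyclic subgroup of order 4 by the
height or by the conductor (times an arbitrary factor as in `Factor`). There are finitely many curves
of size at most `Z`, and their number tends to infinity with `Z`. `E'` is the quotient of `E` by a
rational point of order two.
(1) For every `r ≥ 0` a positive proportion of the curves `E` (the lower density is positive) has
`rank E(ℚ) + dim Ш(E')[2] = r` and, over every number field `K` whose Galois closure over `ℚ` has odd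
degree, `w(E'/K) = (-1) ^ r` and a rank `rk E(K)` of the parity of `rk E(ℚ)`. For `r = 0` the parity
conjecture `(-1) ^ rk E(K) = w(E/K)` holds over all these fields.
(2) For all `m ≥ 2`, `N` there are a finite list `L` of tuples of products of two primes larger than
`N`, the `2 m` primes distinct, so that the fields `F = ℚ(√d_1, ..., √d_m)` have degree `2 ^ m`, and
`δ > 0` such that for all large `Z` for some `d` in `L` at least a proportion `δ` of the curves `E` of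
size at most `Z` has `rk E(F) = 0` and, over every number field `K` containing `F` whose Galois closure
over `F` has odd degree, even rank and `w(E'/K) = 1`. -/
theorem result : ∀ I : ℤ × ℤ → ℕ → Prop, Ordering I →
    (∀ Z : ℕ, (Fam I Z).Finite) ∧ Tendsto (fun Z : ℕ => (Fam I Z).ncard) atTop atTop ∧
    (∀ r : ℕ, ∃ δ : ℝ, 0 < δ ∧ ∀ᶠ Z : ℕ in atTop, δ ≤ proportion I (ParityOdd r) Z) ∧
    ∀ m N : ℕ, 2 ≤ m → ∃ L : Finset (Fin m → ℕ), (∀ d ∈ L, Tuple N d ∧
        ∀ (K : Type) [Field K] [NumberField K], IsField d K → Module.finrank ℚ K = 2 ^ m) ∧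
      ∃ δ : ℝ, 0 < δ ∧ ∀ᶠ Z : ℕ in atTop, ∃ d ∈ L, δ ≤ proportion I (Parity d) Z := by
  intro I hI
  refine ⟨Fam_fin hI, Fam_tendsto hI, fun r => ?_, fun m N hm => ?_⟩
  · obtain ⟨δ, hδ, h⟩ := pos1 (Pool.Agent.Q17.LS.NF.tog_pos r) hI
    refine ⟨δ, hδ, h.mono fun Z hZ => hZ.trans (prop_le hI fun c _ hc => odd_of hc)⟩
  · obtain ⟨L, hL, hpos⟩ := Pool.Agent.Q17.LS.NF.twe_pos m N hm
    obtain ⟨δ, hδ, h⟩ := posL hpos hI
    refine ⟨L, fun d hd => ⟨tup8 (hL d hd), fun K _ _ hK => deg_of (tup8 (hL d hd)) K hK⟩, δ, hδ,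
      h.mono fun Z hZ => ?_⟩
    obtain ⟨d, hd, h1⟩ := hZ
    exact ⟨d, hd, h1.trans (prop_le hI fun c _ hc => parity_of (tup8 (hL d hd)) hc)⟩

end Pool.Agent.Results.MP_577099_nt.CyclicFourNumberFields
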