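import Mathlib
import Pool.Agent.Q18.P.Cat
import Pool.Agent.Q18.P.EC

/-!
# The parity conjecture over `ℚ`: the number of violations in a finite family, from one sequence of windows

Let `E_i : y² = x³ + a_i x + b_i` (`i = 1, …, m`) be elliptic curves over `ℚ` with root numbers `w_i`, `m₋` the number of
`i` with `w_i = -1`, `S` a finite set of primes containing those dividing `6 (4 a_i³ + 27 b_i²)`, and
`P(y) = ∏_i ∏_{p ∉ S, p ≤ y} #E_i(𝔽_p)/p` ONE product for all of them. `F_i` is the `L`-function of `E_i` without the factors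
at `S` (centre `1`); its properties listed in `Known` are theorems (modularity; `(-1)^{order} = w`; Gross-Zagier and
Kolyvagin: rank `=` order if the order is at most `1`). Fix `0 < δ < 1`; the windows are `[Y^(1-δ), Y]`.

1. If `∫ max (log P(y) - κ log log y, 0) dy/y ≤ B log Y` over the windows of arbitrarily large `Y` (one sequence, as sparse
   as we like), then all `F_i` are free of zeros in `Re s > 1`, and for all but at most `(κ - m₋)/2` of the curves the rank is
   equal to the analytic rank, is at most `1`, and satisfies the parity conjecture `(-1)^rank = w_i`. In particular all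
   curves do if `κ < m₋ + 2`.
2. If at least `k` of the curves violate the parity conjecture, then for every `κ < m₋ + 2k` and every `B` the bound fails
   for ALL large `Y`. For one curve: a violation makes `P` large in every window, `κ < 2` for `w = 1`, `κ < 3` for `w = -1`.
3. For any one `κ` with `m₋ ≤ κ < m₋ + 2`: the Riemann hypothesis and the least order allowed by `w_i` (`0` or `1`) for all `i`
   ⟺ the bound of 1. for some `B` and arbitrarily large `Y` ⟺ for some `B` and all large `Y`.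
-/

set_option autoImplicit false

namespace Pool.Agent.Results.MP_577099_nt.FewViolations

open Filter Topology Set Complex NumberField IsDedekindDomain MeasureTheory
open Pool.Agent.Q18.P (NoZeros Order Holo MeanBound excess)
open Pool.Agent.Q18.P.EC (Good Euler rank)

/-- What is known about the `L`-function `F` of `y² = x³ + a x + b` over `ℚ` without the Euler factors at `S`; `w` is the
root number. -/
structure Known (a b : 𝓞 ℚ) (S : Finset (HeightOneSpectrum (𝓞 ℚ))) (F : ℂ → ℂ) (w : ℤ) : Prop where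
  good : ∀ v, v ∉ S → Good a b v
  /-- the Euler product -/
  euler : Euler S a b F
  /-- holomorphic of polynomial growth in a half plane `Re s > 1 - η` (modularity) -/
  holo : Holo 1 F
  sign : w = 1 ∨ w = -1
  /-- the functional equation -/
  even : w = 1 → ∀ m : ℤ, Order 1 F m → 2 ∣ m
  odd : w = -1 → ∀ m : ℤ, Order 1 F m → 2 ∣ m - 1
  /-- Gross-Zagier, Kolyvagin -/
  zero : Order 1 F 0 → rank a b = 0
  one : Order 1 F 1 → rank a b = 1

variable {m : ℕ}

/-- `P(y) = ∏_i ∏_{p ∉ S, p ≤ y} #E_i(𝔽_p)/p` -/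
noncomputable def product (S : Finset (HeightOneSpectrum (𝓞 ℚ))) (a b : Fin m → 𝓞 ℚ) (y : ℝ) : ℝ :=
  ∏ i, Pool.Agent.Q18.P.EC.product S (a i) (b i) y

/-- the number of `i` with `w_i = -1` -/
def minus (w : Fin m → ℤ) : ℕ := (Finset.univ.filter fun i => w i = -1).card

/-- rank equal to analytic rank, at most one, and with the parity given by the root number -/
def Fine (a b : 𝓞 ℚ) (F : ℂ → ℂ) (w : ℤ) : Prop :=
  Order 1 F (rank a b) ∧ rank a b ≤ 1 ∧ (-1) ^ rank a b = w

/-- **The number of violations of the parity conjecture in a finite family.** -/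
theorem result (m : ℕ) (a b : Fin m → 𝓞 ℚ) (S : Finset (HeightOneSpectrum (𝓞 ℚ))) (F : Fin m → ℂ → ℂ) (w : Fin m → ℤ)
    (h : ∀ i, Known (a i) (b i) S (F i) (w i)) (δ : ℝ) (h0 : 0 < δ) (h1 : δ < 1) :
    -- (1) one sequence of windows
    (∀ κ B : ℝ, (∃ᶠ Y : ℝ in atTop, MeanBound δ (excess (product S a b) κ) B Y) →
      (∀ i, NoZeros 1 (F i)) ∧ (Nat.card {i // ¬ Fine (a i) (b i) (F i) (w i)} : ℝ) ≤ (κ - minus w) / 2 ∧
      (κ < minus w + 2 → ∀ i, Fine (a i) (b i) (F i) (w i))) ∧
    -- (2) in every window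
    (∀ k : ℕ, k ≤ Nat.card {i // (-1) ^ rank (a i) (b i) ≠ w i} → ∀ κ B : ℝ, κ < minus w + 2 * k →
      ∀ᶠ Y : ℝ in atTop, ¬ MeanBound δ (excess (product S a b) κ) B Y) ∧
    -- (3) all orders are as small as possible
    (∀ κ : ℝ, minus w ≤ κ → κ < minus w + 2 → List.TFAE [
      (∀ i, NoZeros 1 (F i)) ∧ ∀ i, Order 1 (F i) (if w i = -1 then 1 else 0),
      ∃ B : ℝ, ∃ᶠ Y : ℝ in atTop, MeanBound δ (excess (product S a b) κ) B Y,
      ∃ B : ℝ, ∀ᶠ Y : ℝ in atTop, MeanBound δ (excess (product S a b) κ) B Y]) := by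
  classical
  set r : (i : Fin m) → HeightOneSpectrum (𝓞 ℚ) → Fin 2 → ℂ := fun i => Pool.Agent.Q18.P.EC.al (a i) (b i) with hr
  have hP : Pool.Agent.Q18.P.Pure 1 S (Pool.Agent.Q18.P.cat (N := fun _ : Fin m => 2) r) :=
    Pool.Agent.Q18.P.cat_pure fun i => Pool.Agent.Q18.P.EC.pure (h i).good
  have hH : Holo 1 (fun s => ∏ i, F i s) := Pool.Agent.Q18.P.holo_prod _ fun i _ => (h i).holo
  have hE : Pool.Agent.Q18.P.Euler 1 S (Pool.Agent.Q18.P.cat (N := fun _ : Fin m => 2) r) (fun s => ∏ i, F i s) :=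
    Pool.Agent.Q18.P.cat_euler fun i => Pool.Agent.Q18.P.EC.euler (h i).good (h i).euler
  have L := Pool.Agent.Q18.P.laws Pool.Agent.Q18.P.EC.one_c hP.le hH hE h0 h1
  have e1 : product S a b = Pool.Agent.Q18.P.product 1 S (Pool.Agent.Q18.P.cat (N := fun _ : Fin m => 2) r) := by
    funext y
    rw [Pool.Agent.Q18.P.product_cat]
    unfold product
    refine Finset.prod_congr rfl fun i _ => ?_
    rw [Pool.Agent.Q18.P.EC.product_eq (h i).good]
  have hz : NoZeros 1 (fun s => ∏ i, F i s) ↔ ∀ i, NoZeros 1 (F i) := Pool.Agent.Q18.P.noZeros_prod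
  have hfin : (∀ i, NoZeros 1 (F i)) → ∃ e : Fin m → ℤ, ∀ i, Order 1 (F i) (e i) := by
    intro h2
    have := fun i => Pool.Agent.Q18.P.order_finite (h i).holo (h2 i)
    choose e he using this
    exact ⟨e, he⟩
  have hsum : ∀ e : Fin m → ℤ, (∀ i, Order 1 (F i) (e i)) → Order 1 (fun s => ∏ i, F i s) (∑ i, e i) :=
    fun e he => Pool.Agent.Q18.P.order_prod Finset.univ (fun i _ => (h i).holo) fun i _ => he i
  have huniq : ∀ e e' : ℤ, Order 1 (fun s => ∏ i, F i s) e → Order 1 (fun s => ∏ i, F i s) e' → e = e' := by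
    intro e e' h2 h'
    unfold Pool.Agent.Q18.P.Order at h2 h'
    rw [h2] at h'
    exact_mod_cast h'
  set ε : Fin m → ℤ := fun i => if w i = -1 then 1 else 0 with hε
  have hmod : ∀ (e : Fin m → ℤ), (∀ i, Order 1 (F i) (e i)) → ∀ i, ε i ≤ e i ∧ 2 ∣ e i - ε i := by
    intro e he i
    have h2 := Pool.Agent.Q18.P.order_nonneg (h i).holo (he i)
    rcases (h i).sign with h3 | h3
    · have h4 := (h i).even h3 _ (he i)
      have h5 : ε i = 0 := by rw [hε]; simp [h3]
      rw [h5]
      exact ⟨h2, by rw [sub_zero]; exact h4⟩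
    · have h4 := (h i).odd h3 _ (he i)
      have h5 : ε i = 1 := by rw [hε]; simp [h3]
      rw [h5]
      exact ⟨by omega, h4⟩
  have hfine : ∀ (e : Fin m → ℤ), (∀ i, Order 1 (F i) (e i)) → ∀ i, e i = ε i → Fine (a i) (b i) (F i) (w i) := by
    intro e he i hi
    have h6 := he i
    rw [hi] at h6
    rcases (h i).sign with h3 | h3
    · have h5 : ε i = 0 := by rw [hε]; simp [h3]
      rw [h5] at h6
      have h7 := (h i).zero h6
      refine ⟨by rw [h7]; exact h6, by omega, by rw [h7, pow_zero, h3]⟩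
    · have h5 : ε i = 1 := by rw [hε]; simp [h3]
      rw [h5] at h6
      have h7 := (h i).one h6
      refine ⟨by rw [h7]; exact h6, by omega, by rw [h7, pow_one, h3]⟩
  have hminus : (minus w : ℤ) = ∑ i, ε i := by
    rw [hε]
    unfold minus
    rw [Finset.sum_boole]
  have hcount : ∀ (e : Fin m → ℤ), (∀ i, Order 1 (F i) (e i)) →
      (minus w : ℤ) + 2 * Nat.card {i // ¬ Fine (a i) (b i) (F i) (w i)} ≤ ∑ i, e i := by
    intro e he
    have hcard : (Nat.card {i // ¬ Fine (a i) (b i) (F i) (w i)} : ℤ) =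
        ∑ i : Fin m, if ¬ Fine (a i) (b i) (F i) (w i) then (1 : ℤ) else 0 := by
      rw [Finset.sum_boole, Nat.card_eq_fintype_card, Fintype.card_subtype]
    rw [hcard, hminus, Finset.mul_sum, ← Finset.sum_add_distrib]
    refine Finset.sum_le_sum fun i _ => ?_
    have h2 := hmod e he i
    by_cases h3 : Fine (a i) (b i) (F i) (w i)
    · rw [if_neg (not_not.2 h3)]
      omega
    · rw [if_pos h3]
      have h4 : e i ≠ ε i := fun h5 => h3 (hfine e he i h5)
      omega
  have hup : ∀ κ : ℝ, List.TFAE [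
      (∀ i, NoZeros 1 (F i)) ∧ ∃ e : Fin m → ℤ, (∀ i, Order 1 (F i) (e i)) ∧ ((∑ i, e i : ℤ) : ℝ) ≤ κ,
      ∃ B : ℝ, ∃ᶠ Y : ℝ in atTop, MeanBound δ (excess (product S a b) κ) B Y,
      ∃ B : ℝ, ∀ᶠ Y : ℝ in atTop, MeanBound δ (excess (product S a b) κ) B Y] := by
    intro κ
    rw [e1]
    have t := L.upper κ
    have e3 : (NoZeros 1 (fun s => ∏ i, F i s) ∧ ∃ e : ℤ, Order 1 (fun s => ∏ i, F i s) e ∧ (e : ℝ) ≤ κ) ↔
        ((∀ i, NoZeros 1 (F i)) ∧ ∃ e : Fin m → ℤ, (∀ i, Order 1 (F i) (e i)) ∧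
          ((∑ i, e i : ℤ) : ℝ) ≤ κ) := by
      rw [hz]
      refine and_congr_right fun hzz => ?_
      constructor
      · rintro ⟨e', he', hle⟩
        obtain ⟨e, he⟩ := hfin hzz
        have h3 := huniq _ _ he' (hsum e he)
        exact ⟨e, he, by rw [← h3]; exact hle⟩
      · rintro ⟨e, he, hle⟩
        exact ⟨_, hsum e he, hle⟩
    rw [e3] at t
    exact t
  -- all orders are minimal if their sum is less than `m₋ + 2`
  have hall : ∀ (e : Fin m → ℤ), (∀ i, Order 1 (F i) (e i)) → ∑ i, e i < (minus w : ℤ) + 2 → ∀ i, e i = ε i := by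
    intro e he hlt i
    by_contra hi
    have h2 := hmod e he
    have h3 : ε i + 2 ≤ e i := by
      have := h2 i
      omega
    have h4 : ∑ j, (ε j + if j = i then (2 : ℤ) else 0) ≤ ∑ j, e j := by
      refine Finset.sum_le_sum fun j _ => ?_
      by_cases h5 : j = i
      · rw [if_pos h5, h5]; exact h3
      · rw [if_neg h5, add_zero]
        exact (h2 j).1
    rw [Finset.sum_add_distrib, Finset.sum_ite_eq' Finset.univ i, if_pos (Finset.mem_univ i), ← hminus] at h4
    omega
  have lt_of : ∀ (e : Fin m → ℤ) (κ : ℝ), ((∑ i, e i : ℤ) : ℝ) ≤ κ → κ < minus w + 2 →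
      ∑ i, e i < (minus w : ℤ) + 2 := by
    intro e κ hle hκ
    have h2 : ((∑ i, e i : ℤ) : ℝ) < (((minus w : ℤ) + 2 : ℤ) : ℝ) := by
      push_cast
      push_cast at hle
      linarith
    exact_mod_cast h2
  have first : ∀ κ B : ℝ, (∃ᶠ Y : ℝ in atTop, MeanBound δ (excess (product S a b) κ) B Y) →
      (∀ i, NoZeros 1 (F i)) ∧ (Nat.card {i // ¬ Fine (a i) (b i) (F i) (w i)} : ℝ) ≤ (κ - minus w) / 2 ∧
      (κ < minus w + 2 → ∀ i, Fine (a i) (b i) (F i) (w i)) := by
    intro κ B hB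
    have t : ((∀ i, NoZeros 1 (F i)) ∧ ∃ e : Fin m → ℤ, (∀ i, Order 1 (F i) (e i)) ∧ ((∑ i, e i : ℤ) : ℝ) ≤ κ) ↔
      ∃ B : ℝ, ∃ᶠ Y : ℝ in atTop, MeanBound δ (excess (product S a b) κ) B Y := (hup κ).out 0 1
    obtain ⟨hz', e, he, hle⟩ := t.2 ⟨B, hB⟩
    refine ⟨hz', ?_, fun hκ i => ?_⟩
    · have h2 := hcount e he
      have h3 : (((minus w : ℤ) + 2 * Nat.card {i // ¬ Fine (a i) (b i) (F i) (w i)} : ℤ) : ℝ) ≤ κ := by
        refine le_trans ?_ hle
        exact_mod_cast h2
      push_cast at h3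
      linarith
    · exact hfine e he i (hall e he (lt_of e κ hle hκ) i)
  refine ⟨first, fun k hk κ B hκ => ?_, fun κ hκ1 hκ2 => ?_⟩
  · by_contra hne
    rw [Filter.not_eventually] at hne
    have hB : ∃ᶠ Y : ℝ in atTop, MeanBound δ (excess (product S a b) κ) B Y := hne.mono fun Y hY => not_not.1 hY
    have h2 := (first κ B hB).2.1
    have h3 : Nat.card {i // (-1) ^ rank (a i) (b i) ≠ w i} ≤ Nat.card {i // ¬ Fine (a i) (b i) (F i) (w i)} := by
      refine Nat.card_le_card_of_injective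
        (fun x : {i // (-1) ^ rank (a i) (b i) ≠ w i} => (⟨x.1, fun hf => x.2 hf.2.2⟩ :
          {i // ¬ Fine (a i) (b i) (F i) (w i)})) ?_
      intro x y hxy
      simp only [Subtype.mk.injEq] at hxy
      exact Subtype.ext hxy
    have h4 : (k : ℝ) ≤ Nat.card {i // ¬ Fine (a i) (b i) (F i) (w i)} := by exact_mod_cast hk.trans h3
    linarith
  · have t := hup κ
    have e3 : ((∀ i, NoZeros 1 (F i)) ∧ ∃ e : Fin m → ℤ, (∀ i, Order 1 (F i) (e i)) ∧ ((∑ i, e i : ℤ) : ℝ) ≤ κ) ↔
        ((∀ i, NoZeros 1 (F i)) ∧ ∀ i, Order 1 (F i) (ε i)) := by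
      refine and_congr_right fun _ => ?_
      constructor
      · rintro ⟨e, he, hle⟩ i
        have h3 := hall e he (lt_of e κ hle hκ2) i
        have h4 := he i
        rwa [h3] at h4
      · intro h2
        refine ⟨ε, h2, ?_⟩
        rw [← hminus]
        exact_mod_cast hκ1
    rw [e3] at t
    exact t

end Pool.Agent.Results.MP_577099_nt.FewViolations
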