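import Mathlib
import Pool.Agent.Y667.PA.MainR
import Pool.Agent.W307.RT.Tors
import Pool.Agent.Y679.Cr.Conv
import Pool.Agent.Y679.Cr.Dens

/-!
# Ranks, 2-Selmer groups and root numbers of the curves with full rational 2-torsion, by conductor

All elliptic curves over `ℚ` with full rational 2-torsion, ordered by the conductor (with an
arbitrary bounded factor in the place of its part composed of 2 and 3), with no bound on the height.
For every `r ≥ 0` a positive proportion of the curves has a 2-Selmer group of order exactly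
`2 ^ (r + 2)`, rank at most `r` and root number `(-1) ^ r`. For `r = 0` the rank is `0` and the root
number is `1`, so that the parity conjecture holds for a positive proportion of the curves in this
ordering.
-/

set_option autoImplicit false

namespace Pool.Agent.Results.MP_577099_nt.RootNumbersByConductor

open Finset Filter Topology

/-- the curve `y² = x³ + A x + B` over `ℚ` -/
def E (A B : ℤ) : WeierstrassCurve ℚ := ⟨0, 0, 0, (A : ℚ), (B : ℚ)⟩

/-- The prime-to-6 part of the conductor of `y² = x³ + A x + B` (there is no prime `p` with `p⁴ ∣ A`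
and `p⁶ ∣ B`): the product over the primes `p ≥ 5` dividing `4 A³ + 27 B²` of `p` (multiplicative
reduction: `p ∤ A`) or `p²` (additive reduction: `p ∣ A`) -/
def Cond6 (c : ℤ × ℤ) : ℕ :=
  ∏ p ∈ (Int.natAbs (4 * c.1 ^ 3 + 27 * c.2 ^ 2)).primeFactors.filter (fun p => 5 ≤ p),
    if (p : ℤ) ∣ c.1 then p ^ 2 else p

/-- the admissible factors: functions with values between `1` and `2 ^ 8 * 3 ^ 5`, for instance the
part of the conductor composed of the primes 2 and 3, or `f = 1` -/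
def Factor (f : ℤ × ℤ → ℕ) : Prop := ∀ c, 1 ≤ f c ∧ f c ≤ 2 ^ 8 * 3 ^ 5

/-- the conductor (its prime-to-6 part times the factor `f`) of `y² = x³ + A x + B` is at most `Z` -/
def CondLe (f : ℤ × ℤ → ℕ) (c : ℤ × ℤ) (Z : ℕ) : Prop := f c * Cond6 c ≤ Z

/-- The pairs `(A, B)` of integers such that `4 A³ + 27 B² ≠ 0`, there is no prime `p` with
`p⁴ ∣ A` and `p⁶ ∣ B`, `Z/2 x Z/2` embeds in the group of the rational points of
`y² = x³ + A x + B`, and the conductor (with the factor `f`) is at most `Z`. Every elliptic curve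
over `ℚ` with full rational 2-torsion is isomorphic to `E A B` for exactly one pair with the first
three properties. -/
def Fam (f : ℤ × ℤ → ℕ) (Z : ℕ) : Set (ℤ × ℤ) :=
  {c : ℤ × ℤ | 4 * c.1 ^ 3 + 27 * c.2 ^ 2 ≠ 0 ∧
    (∀ p : ℕ, p.Prime → ¬ ((p : ℤ) ^ 4 ∣ c.1 ∧ (p : ℤ) ^ 6 ∣ c.2)) ∧
    (∃ g : ZMod 2 × ZMod 2 →+ (E c.1 c.2).toAffine.Point, Function.Injective g) ∧ CondLe f c Z}

/-- the proportion of the curves of `S` among the curves of conductor at most `Z` -/
noncomputable def proportion (f : ℤ × ℤ → ℕ) (S : Set (ℤ × ℤ)) (Z : ℕ) : ℝ :=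
  ((Fam f Z ∩ S).ncard : ℝ) / (Fam f Z).ncard

/-- The local condition at a completion `K` of `ℚ`: there is a point `(x, y)`, `y ≠ 0`, of
`y² = x³ + A x + B` over `K` such that `(x - e) * d e` is a square for all the integer roots `e` of
`x³ + A x + B`. (Every class of `E(K) / 2 E(K)` contains a point with `y ≠ 0`.) -/
def Local (K : Type) [Field K] (A B : ℤ) (d : ℤ → ℤ) : Prop :=
  ∃ x y : K, y ≠ 0 ∧ y ^ 2 = x ^ 3 + A * x + B ∧
    ∀ e : ℤ, e ^ 3 + A * e + B = 0 → IsSquare ((x - e) * d e)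

/-- The 2-Selmer group of `y² = x³ + A x + B`, a curve with three integer roots. As `E[2]` is the
group of the families of signs with product one indexed by the roots, an element of the 2-Selmer
group is a family of classes of nonzero rational numbers modulo squares indexed by the roots `e`,
given by squarefree integers `d e` (`d e = 1` if `e` is not a root), which over `ℝ` and over `ℚ_[p]`
for all primes `p` is the family of the classes of `x - e` for a point of the curve. -/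
def Sel2 (A B : ℤ) : Set (ℤ → ℤ) :=
  {d | (∀ e, Squarefree (d e)) ∧ (∀ e : ℤ, e ^ 3 + A * e + B ≠ 0 → d e = 1) ∧ Local ℝ A B d ∧
    ∀ (p : ℕ) [Fact p.Prime], Local ℚ_[p] A B d}

/-- the Mordell-Weil rank -/
noncomputable def rank (c : ℤ × ℤ) : ℕ := Module.finrank ℤ (E c.1 c.2).toAffine.Point

/-- `a_p = p + 1 - #V(𝔽_p)`, that is `p` minus the number of the affine solutions of the Weierstrass
equation modulo `p`; for a prime of multiplicative reduction this is `1` (split) or `-1`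
(non-split) -/
noncomputable def ap (V : WeierstrassCurve ℤ) (p : ℕ) : ℤ :=
  p - Nat.card {z : ZMod p × ZMod p // z.2 ^ 2 + V.a₁ * z.1 * z.2 + V.a₃ * z.2 =
    z.1 ^ 3 + V.a₂ * z.1 ^ 2 + V.a₄ * z.1 + V.a₆}

/-- the equation with integer coefficients is nonsingular over `ℚ` and at every prime the reduction
is good or multiplicative (then it is a minimal equation) -/
def Semistable (V : WeierstrassCurve ℤ) : Prop :=
  V.Δ ≠ 0 ∧ ∀ p : ℕ, p.Prime → (p : ℤ) ∣ V.Δ → ¬ (p : ℤ) ∣ V.c₄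

/-- the conductor of a semistable curve -/
def conductor (V : WeierstrassCurve ℤ) : ℕ := ∏ p ∈ V.Δ.natAbs.primeFactors, p

/-- The root number of a semistable curve: the product of the local root numbers `-1` at infinity
and `-a_p` at the primes of bad (multiplicative) reduction. -/
noncomputable def wSemi (V : WeierstrassCurve ℤ) : ℤ :=
  -∏ p ∈ V.Δ.natAbs.primeFactors, (-ap V p)

/-- the quadratic twist by `d` of the curve `V` (the curve `y² = x³ + b₂ x² + 8 b₄ x + 16 b₆`) -/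
def twist (V : WeierstrassCurve ℤ) (d : ℕ) : WeierstrassCurve ℚ :=
  ⟨0, (d : ℚ) * V.b₂, 0, 8 * (d : ℚ) ^ 2 * V.b₄, 16 * (d : ℚ) ^ 3 * V.b₆⟩

/-- `w` is the root number of `W`, for the quadratic twists `W` of a semistable curve `V` of conductor
`N` by a positive fundamental discriminant `d ≡ 1` modulo `4` prime to `N` (`d = 1` allowed): it is
`χ_d(-N) w_V`, where `χ_d(-N) = χ_d(N)` is the Jacobi symbol `(N / d)` -/
def HasRootNumber (W : WeierstrassCurve ℚ) (w : ℤ) : Prop :=
  ∃ (V : WeierstrassCurve ℤ) (d : ℕ), Semistable V ∧ Squarefree d ∧ d % 4 = 1 ∧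
    d.Coprime V.Δ.natAbs ∧ (∃ C : WeierstrassCurve.VariableChange ℚ, C • W = twist V d) ∧
    w = jacobiSym (conductor V) d * wSemi V

/-- the curves with a 2-Selmer group of order `2 ^ (r + 2)`, rank at most `r` and root number
`(-1) ^ r` -/
def SelRoot (r : ℕ) : Set (ℤ × ℤ) :=
  {c | (Sel2 c.1 c.2).Finite ∧ (Sel2 c.1 c.2).ncard = 2 ^ (r + 2) ∧ rank c ≤ r ∧
    HasRootNumber (E c.1 c.2) ((-1) ^ r)}

/-- the property without the size -/
def Pr (c : ℤ × ℤ) : Prop := 4 * c.1 ^ 3 + 27 * c.2 ^ 2 ≠ 0 ∧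
    (∀ p : ℕ, p.Prime → ¬ ((p : ℤ) ^ 4 ∣ c.1 ∧ (p : ℤ) ^ 6 ∣ c.2)) ∧
    (∃ g : ZMod 2 × ZMod 2 →+ (E c.1 c.2).toAffine.Point, Function.Injective g)

lemma good : Pool.Agent.Y679.Cr.Good Pr := by
  classical
  refine ⟨fun c hc => ⟨?_, ?_⟩, fun H c hc => ?_, Pool.Agent.W672.FK.lowf⟩
  · exact Pool.Agent.Y679.Cr.isMin_of hc.1 hc.2.1
  · exact Pool.Agent.Y679.Cr.full_of (Pool.Agent.W307.RT.tors_iff.2 hc.2.2)
  · unfold Pool.Agent.W307.RT.Cv at hc
    obtain ⟨-, h1, -, -, h2, h3⟩ := mem_filter.1 hc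
    exact ⟨h1, h2, Pool.Agent.W307.RT.tors_iff.1 h3⟩

lemma cond_eq (c : ℤ × ℤ) : Pool.Agent.Y679.Cr.cs c = Cond6 c := by
  unfold Pool.Agent.Y679.Cr.cs Pool.Agent.H925R.Szpiro.condS Cond6
  rw [Pool.Agent.Y679.Cr.D_neg, Int.natAbs_neg]
  refine prod_congr rfl fun p _ => ?_
  by_cases h : (p : ℤ) ∣ c.1
  · rw [if_pos h, if_pos (Int.dvd_neg.2 h)]
  · rw [if_neg h, if_neg fun h' => h (Int.dvd_neg.1 h')]

lemma bdd {f : ℤ × ℤ → ℕ} (hf : Factor f) : Pool.Agent.Y679.Cr.Bdd f :=
  fun c => ⟨(hf c).1, (hf c).2.trans (by norm_num)⟩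

lemma FamC_eq (f : ℤ × ℤ → ℕ) (Z : ℕ) : Fam f Z = Pool.Agent.Y679.Cr.Gm Pr f Z := by
  ext c
  unfold Fam CondLe Pool.Agent.Y679.Cr.Gm
  rw [Set.mem_ofPred_eq, Set.mem_ofPred_eq, cond_eq]
  exact ⟨fun h => ⟨⟨h.1, h.2.1, h.2.2.1⟩, h.2.2.2⟩, fun h => ⟨h.1.1, h.1.2.1, h.1.2.2, h.2⟩⟩

/-- **Theorem.** Order the elliptic curves over `ℚ` with full rational 2-torsion by the conductor
(the part composed of 2 and 3 replaced by an arbitrary factor `f` between `1` and `2 ^ 8 * 3 ^ 5`,
for instance by itself). There are finitely many curves of conductor at most `Z`, their number tends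
to infinity with `Z`, and for every `r ≥ 0` there is `δ > 0`, independent of `f`, such that for
large `Z` at least the proportion `δ` of these curves has a 2-Selmer group of order `2 ^ (r + 2)`,
rank at most `r` and root number `(-1) ^ r`. For `r = 0`: rank `0` and root number `1`. -/
theorem result :
    (∀ f : ℤ × ℤ → ℕ, Factor f → (∀ Z : ℕ, (Fam f Z).Finite) ∧
      Tendsto (fun Z : ℕ => (Fam f Z).ncard) atTop atTop) ∧
    ∀ r : ℕ, ∃ δ : ℝ, 0 < δ ∧ ∀ f : ℤ × ℤ → ℕ, Factor f →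
      ∀ᶠ Z : ℕ in atTop, δ ≤ proportion f (SelRoot r) Z := by
  classical
  refine ⟨fun f hf => ⟨fun Z => ?_, ?_⟩, fun r => ?_⟩
  · rw [FamC_eq]
    exact Pool.Agent.Y679.Cr.Gm_fin good (bdd hf) Z
  · simp only [FamC_eq]
    exact Pool.Agent.Y679.Cr.Gm_tendsto good (bdd hf)
  · obtain ⟨δ, hδ, h⟩ := Pool.Agent.Y679.Cr.pos good (T := Pool.Agent.Y667.PA.TPR r) (by
      obtain ⟨c, hc, H0, h⟩ := Pool.Agent.Y667.PA.curvesPR r
      refine ⟨c, hc, H0, fun H hH => ⟨_, fun k hk => ?_, h H hH⟩⟩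
      exact mem_filter.1 (mem_coe.1 hk))
    refine ⟨δ, hδ, fun f hf => ?_⟩
    filter_upwards [h f (bdd hf)] with Z hZ
    refine hZ.trans ?_
    unfold proportion
    rw [← FamC_eq]
    refine div_le_div_of_nonneg_right (Nat.cast_le.2 (Set.ncard_le_ncard ?_ (Set.Finite.subset
      (by
        rw [FamC_eq]
        exact Pool.Agent.Y679.Cr.Gm_fin good (bdd hf) Z) Set.inter_subset_left)))
      (Nat.cast_nonneg _)
    rintro k ⟨h1, h2⟩
    exact ⟨h1, h2.1, h2.2.1, Pool.Agent.Y667.MT.rank_le h1.1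
      (Pool.Agent.W307.RT.tors_iff.2 h1.2.2.1) h2.1 h2.2.1, h2.2.2.1⟩

end Pool.Agent.Results.MP_577099_nt.RootNumbersByConductor
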